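import Pool.Agent.helper31.GPR.Spec

set_option autoImplicit false

namespace Pool.Agent.GPR

open Pool.Agent.helper25.QST

theorem KER_ns {V : Type} [AddCommGroup V] [Module (ZMod 2) V] {x y : V} (hy : y ≠ 0) (h : x ≠ y) :
    y ∉ Submodule.span (ZMod 2) {x} := by
  intro hm
  obtain ⟨a, ha⟩ := Submodule.mem_span_singleton.1 hm
  have h1 : ∀ b : ZMod 2, b = 0 ∨ b = 1 := by decide
  rcases h1 a with h2 | h2
  · rw [h2, zero_smul] at ha
    exact hy ha.symm
  · rw [h2, one_smul] at ha
    exact h ha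

theorem KER (hBEX : BEX_stmt) : KER_stmt := by
  intro V _ _ _ 𝓑 hS x y J J' hJ hJ' hxy e
  obtain ⟨B, hB, hxB, hyB, huB⟩ := hBEX V 𝓑 hS x y hJ.nz (KER_ns hJ'.nz hxy)
  have hle : LinearMap.ker (J + J' + e • LinearMap.id) ≤ B := by
    intro w hw
    by_contra hwB
    have h0 : J w + J' w + e • w = 0 := hw
    have hwx : w ∉ Submodule.span (ZMod 2) {x} := fun h =>
      hwB ((Submodule.span_le.2 (Set.singleton_subset_iff.2 hxB)) h)
    have hwy : w ∉ Submodule.span (ZMod 2) {y} := fun h =>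
      hwB ((Submodule.span_le.2 (Set.singleton_subset_iff.2 hyB)) h)
    obtain ⟨C, hC, hxC, hwC, -⟩ := hBEX V 𝓑 hS x w hJ.nz hwx
    obtain ⟨C', hC', hyC', hwC', -⟩ := hBEX V 𝓑 hS y w hJ'.nz hwy
    have hJC : J w ∈ C := by
      rw [hJ.blk w hwx C hC hxC hwC]
      exact Submodule.subset_span (by simp)
    have hJC' : J' w ∈ C' := by
      have h1 : J' w ∈ Submodule.span (ZMod 2) {y, w, J' w} := Submodule.subset_span (by simp)
      rwa [← hJ'.blk w hwy C' hC' hyC' hwC'] at h1
    have hv : J w = -(J' w + e • w) := by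
      rw [add_assoc] at h0
      exact eq_neg_of_add_eq_zero_left h0
    have hJC2 : J w ∈ C' := by
      rw [hv]
      exact C'.neg_mem (C'.add_mem hJC' (C'.smul_mem e hwC'))
    have hw0 : w ≠ 0 := by
      intro h
      rw [h] at hwB
      exact hwB B.zero_mem
    have hvw : J w ∉ Submodule.span (ZMod 2) {w} := by
      intro h
      refine hJ.out w hwx ?_
      exact Submodule.span_mono (by simp) h
    obtain ⟨E, -, -, -, huE⟩ := hBEX V 𝓑 hS w (J w) hw0 hvw
    have hCC : C = C' := (huE C hC hwC hJC).trans (huE C' hC' hwC' hJC2).symm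
    have hyC : y ∈ C := by
      rw [hCC]
      exact hyC'
    have hCB : C = B := huB C hC hxC hyC
    rw [hCB] at hwC
    exact hwB hwC
  have h3 := hS.dim B hB
  rw [← h3]
  exact Submodule.finrank_mono hle

end Pool.Agent.GPR
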